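import Pool.Agent.N19.BR.KMain

/-!
# Defects in the Bloch–Kato order formula over a base field and over a list of extension fields

Variants of `Pool.Agent.N19.BR.blochKato_of_rel` (helper19) for relations `∑ e_j [F_j] = m [K]` with an
arbitrary coefficient `m ≠ 0`, and the lists for cyclic and for `2`-hyperelementary groups.
-/

set_option autoImplicit false

namespace Pool.Agent.N166.PD

open NumberField IsDedekindDomain Polynomial
open Pool.Agent.R433.MD (Ext)
open Pool.Agent.N19.BR Pool.Agent.N19.BR.MDef Pool.Agent.N19.BR.TDef Pool.Agent.N19.BR.Def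

section
variable {K : Type} [Field K] [NumberField K] {k V₁ V₀ : Type} [Field k]
  [AddCommGroup V₁] [Module k V₁] [AddCommGroup V₀] [Module k V₀] {N : ℕ}

/-- The defect over `K`, multiplied by `c`, is `D`: the spaces fixed by the absolute Galois group of `K`
have finite dimensions `h₁`, `h₀`, and every meromorphic continuation of `L(M, s)` to `U`, with any
Euler factors at finitely many primes without pole at `s = 0`, has order `h₁ - h₀ + δ` at `s = 0` for an
integer `δ` with `c δ = D`. -/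
def DefectOverBase (ρ₁ : Representation k Gal(AlgebraicClosure K/K) V₁)
    (ρ₀ : Representation k Gal(AlgebraicClosure K/K) V₀)
    (α : HeightOneSpectrum (𝓞 K) → Fin N → ℂ) (U : Set ℂ) (c : ℕ) (D : ℤ) : Prop :=
  FiniteDimensional k (Representation.invariants ρ₁) ∧
    FiniteDimensional k (Representation.invariants ρ₀) ∧
    ∀ B : HeightOneSpectrum (𝓞 K) → ℂ[X], FactorsOver α B → Regular B 0 →
      ∀ Λ : ℂ → ℂ, Continues U B 1 Λ → ∃ δ : ℤ, meromorphicOrderAt Λ 0 =
        ((Module.finrank k (Representation.invariants ρ₁) -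
          Module.finrank k (Representation.invariants ρ₀) + δ : ℤ) : WithTop ℤ) ∧ (c : ℤ) * δ = D

theorem defect_of_rel [CharZero k]
    (ρ₁ : Representation k Gal(AlgebraicClosure K/K) V₁)
    (ρ₀ : Representation k Gal(AlgebraicClosure K/K) V₀) {Y : FieldList K} {m : ℕ} (hm : m ≠ 0)
    (h : IsRel K (fun j => (⟨Y.F j⟩ : Ext K)) Y.e m)
    {α : HeightOneSpectrum (𝓞 K) → Fin N → ℂ} (hα : Pure (-1) α) {U : Set ℂ}
    (hU : Region (-1) U) (h0 : (0 : ℂ) ∈ U) {δ : Fin Y.r → ℤ}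
    (hF : ∀ j, BlochKato ρ₁ ρ₀ α U (δ j) (Y.F j)) :
    DefectOverBase ρ₁ ρ₀ α U m (∑ j, Y.e j * δ j) := by
  classical
  have hne : Nonempty (Fin Y.r) := nonempty_of_rel hm h
  obtain ⟨h1, h2⟩ := inv_rel ρ₁ Y.F h (fun j => (hF j).1)
  obtain ⟨h3, h4⟩ := inv_rel ρ₀ Y.F h (fun j => (hF j).2.1)
  refine ⟨h1, h3, fun B₀ hB₀ hr₀ Λ₀ hΛ₀ => ?_⟩
  have h5 : ∀ j, ∃ (B : HeightOneSpectrum (𝓞 (Y.F j)) → ℂ[X]) (Λ : ℂ → ℂ),
      FactorsOver α B ∧ Regular B 0 ∧ Continues U B 1 Λ ∧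
      meromorphicOrderAt Λ 0 = ((Module.finrank k (fixedBy ρ₁ (Y.F j)) -
        Module.finrank k (fixedBy ρ₀ (Y.F j)) + δ j : ℤ) : WithTop ℤ) := fun j => by
    obtain ⟨-, -, _, B, Λ, hB, hr, hΛ, ho⟩ := hF j
    exact ⟨B, Λ, hB, hr, hΛ, ho⟩
  choose B Λ hB hr hΛ ho using h5
  obtain ⟨-, h7⟩ := cont_alpha h hα B hB hU hΛ hB₀
  obtain ⟨r₀, h8, h9⟩ := h7 Λ₀ hΛ₀ 0 h0 hr₀ hr _ ho
  refine ⟨r₀ - Module.finrank k (Representation.invariants ρ₁) +
    Module.finrank k (Representation.invariants ρ₀), ?_, ?_⟩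
  · rw [h8]
    congr 1
    ring
  · have h10 : ∑ j, Y.e j * ((Module.finrank k (fixedBy ρ₁ (Y.F j)) : ℤ) -
          Module.finrank k (fixedBy ρ₀ (Y.F j)) + δ j) =
        ∑ j, Y.e j * (Module.finrank k (inv ρ₁ (Y.F j)) : ℤ) -
          ∑ j, Y.e j * (Module.finrank k (inv ρ₀ (Y.F j)) : ℤ) + ∑ j, Y.e j * δ j := by
      rw [← Finset.sum_sub_distrib, ← Finset.sum_add_distrib]
      refine Finset.sum_congr rfl fun j _ => ?_
      rw [mul_add, mul_sub]
      rfl
    rw [h10, ← h2, ← h4] at h9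
    linear_combination h9

end

section
variable (K : Type) [Field K] [NumberField K] (L : Type) [Field L] [NumberField L]
  [Algebra K L] [IsGalois K L] {S : Set (HeightOneSpectrum (𝓞 K))} (hS : S.Finite) {n : ℕ}

include hS

/-- the list for cyclic groups -/
theorem cyclic_list' (hn : n ≠ 0) : ∃ Y : FieldList K, Special L S n Y ∧
    IsRel K (fun j => (⟨Y.F j⟩ : Ext K)) Y.e Y.c := by
  obtain ⟨r, Z, e, m, hm, hrel, hZ⟩ := list_cyclic K L hS hn
  exact ⟨⟨r, fun j => img (Z j), fun j => img_nf (Z j), e, m, hm⟩,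
    fun j => img_prop (Z j) (hZ j), isRel_img' hrel⟩

/-- The coefficient `c` is odd, `Gal(L F_j / F_j)` is `2`-hyperelementary and `n` divides the local
degrees of `F_j / K` at the primes above `S`, for all fields `F_j` in the list. -/
def TwoHyperelementaryList {K : Type} [Field K] [NumberField K] (L : Type) [Field L] [Algebra K L]
    (S : Set (HeightOneSpectrum (𝓞 K))) (n : ℕ) (Y : FieldList K) : Prop :=
  Odd Y.c ∧ ∀ j, HyperelementaryOver 2 L (⟨Y.F j⟩ : Ext K) ∧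
    LocalDegreesDivisible S n (⟨Y.F j⟩ : Ext K)

/-- the list for `2`-hyperelementary groups -/
theorem two_list (hn : Odd n) : ∃ Y : FieldList K, TwoHyperelementaryList L S n Y ∧
    IsRel K (fun j => (⟨Y.F j⟩ : Ext K)) Y.e Y.c := by
  have hn0 : n ≠ 0 := by
    rintro rfl
    exact (by decide : ¬ Odd 0) hn
  obtain ⟨ι, hι, Z, e, m, hm, hr, hP⟩ := core (Or.inr Nat.prime_two) K L hS hn0
    (fun _ => Nat.coprime_two_right.2 hn)
  have hm2 : Odd m := Nat.odd_iff.2 (by omega)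
  have hm0 : m ≠ 0 := fun h => hm (by rw [h]; exact dvd_zero 2)
  let f : Fin (Fintype.card ι) ≃ ι := (Fintype.equivFin ι).symm
  refine ⟨⟨Fintype.card ι, fun j => img (Z (f j)), fun j => img_nf (Z (f j)), fun j => e (f j), m,
    hm0⟩, ⟨hm2, fun j => ?_⟩, isRel_img' (hr.reindex f)⟩
  obtain ⟨h1, h2, -⟩ := hP (f j)
  obtain ⟨Y, hY, -⟩ := copy_eq (Z (f j))
    ((imgEquiv (Z (f j)) : (Z (f j)).F ≃ₐ[K] img (Z (f j))) : (Z (f j)).F →ₐ[K] img (Z (f j)))
  constructor
  · have h5 := cyc_restrict (Z (f j)) Y h1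
    rw [hY] at h5
    exact hyperOver_of Nat.prime_two h5
  · have h4 := loc_restrict (S := S) (a := n) (Z (f j)) Y h2 (loc_one _ Y.F)
    rw [mul_one, hY] at h4
    exact h4

end

end Pool.Agent.N166.PD
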